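import Pool.Agent.Q221.DP.HTa

/-! JOB HT of the project DP: the height of `uu` is `2 m` in general. -/

set_option autoImplicit false
set_option linter.unusedSectionVars false

namespace Pool.Agent.Q221.DP

open MvPolynomial FF Pool.Agent.W603.LV Pool.Agent.TH145.GH Pool.Agent.Y166.DP Pool.Agent.Q35.DP

theorem ht : StmInf → StmPts → StmBasis → StmPhi → StmUU → S_FIX → StmHt := by
  intro hInf hPts hBasis hPhi hUU hFix
  intro k K _ _ _ _ _ _ lam x y he α β γ hβ hγ h0 hσ m r s hm hr hs hD
  classical
  obtain ⟨o, hox, hoy, hreg⟩ := hInf k K lam x y he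
  have hoxneg : o.ord x < 0 := by rw [hox]; norm_num
  obtain ⟨hfn, -, -⟩ := hBasis k K lam x y he o hoxneg
  obtain ⟨p, p', hpo, hp'o, hpp', hpx, hpy, hp'x, hp'y, hφ0, hφ⟩ :=
    hPhi k K lam x y he o hoxneg α β γ hβ hγ h0 hσ
  have hU := hUU k K lam x y he o hoxneg α β γ hβ hγ h0 hσ m r s
  obtain ⟨hPt1, -, hPt3⟩ := hPts k K lam x y he
  obtain ⟨n, rfl⟩ : ∃ n, m = n + 2 := ⟨m - 2, by omega⟩
  have hx0 : x ≠ 0 := Ell.x0 he
  have hy0 : y ≠ 0 := Ell.y0 he
  obtain ⟨hpx0, hpy0⟩ := par_ne he.lam0 he.lam1 hβ hγ
  have hα0 : α ≠ 0 := by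
    rintro rfl
    simp at h0
  have hsne : ∀ j, s j ≠ 0 := by
    intro j h
    obtain ⟨D, -, -, -, h4⟩ := hD j
    have := h4 j
    rw [h, map_zero, if_pos rfl] at this
    exact zero_ne_one this
  -- the order of `r1` at infinity
  obtain ⟨hr1, hor1⟩ := r1_at_o (n := n + 1) hfn hox α β γ s (hsne _)
  have hg1 : uu x y α β γ r s 1 ≠ 0 := (ord_u1 o r s hx0 hφ0 hr1).1
  have hord : ∀ P : Place k K, P.ord (uu x y α β γ r s 1) =
      2 * P.ord (r1 x y α β γ s) - (P.ord x + P.ord (phi x y α β γ)) :=
    fun P => (ord_u1 P r s hx0 hφ0 hr1).2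
  have hg : uu x y α β γ r s ≠ 0 := fun h => hg1 (by rw [h]; rfl)
  -- infinity
  have hoo : o.ord (uu x y α β γ r s 1) = -(2 * ((n : ℤ) + 2) + 1) := by
    rw [hord, hor1, hox, (hφ o).2.2.1 rfl]
    push_cast
    ring
  have hmo : mo o (uu x y α β γ r s) = -(2 * ((n : ℤ) + 2) + 1) := by
    rw [mo_eq o (i := 1) hg1, hoo]
    intro j
    rw [hoo]
    have := (hU j).2.1
    refine this.mono ?_
    push_cast
    rfl
  -- the place `p`
  have hmp : mo p (uu x y α β γ r s) = 1 := by
    apply le_antisymm
    · refine (mo_le p hg1).trans ?_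
      have vx : Val p x (α ^ 2) := hpx
      have vy : Val p y (α * β * γ) := hpy
      have hv := val_r1 vx vy α β γ s
      have hne : (∑ j : Fin (n + 2), s j * (fn (α ^ 2) (α * β * γ) (j + 2) -
          fn (px α β γ) (py α β γ) (j + 2) / px α β γ * α ^ 2)) ≠ 0 := by
        intro hz
        obtain ⟨D, hl, ha, -, h4⟩ := hD 1
        obtain ⟨hDβ, hDγ, hDx, hDy⟩ := par_der D hβ hγ h0 hl ha
        have hw := der_sum D s (fun j : Fin (n + 2) => fn (α ^ 2) (α * β * γ) (j + 2) -
          fn (px α β γ) (py α β γ) (j + 2) / px α β γ * α ^ 2) 1 h4 (fun i => by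
            rw [map_sub, lift_fn (der_pow0 D ha 2) (der_mul0 D (der_mul0 D ha hDβ) hDγ),
              der_mul0 D (der_div D (lift_fn hDx hDy _) hDx) (der_pow0 D ha 2), sub_zero])
        rw [hz, map_zero] at hw
        simp only [Fin.val_one] at hw
        rw [show 1 + 2 = 3 from rfl, fn_three, fn_three] at hw
        have h5 : px α β γ ^ 2 / px α β γ = px α β γ := by
          rw [pow_two, mul_div_assoc, div_self hpx0, mul_one]
        rw [h5] at hw
        have h6 : α ^ 2 * (α * β + α * γ + β * γ) = 0 := by
          unfold px at hw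
          linear_combination hw
        exact (mul_ne_zero (pow_ne_zero 2 hα0) hσ) h6
      obtain ⟨-, h1⟩ := hv.unit hne
      obtain ⟨-, h2⟩ := vx.unit (pow_ne_zero 2 hα0)
      rw [hord, h1, h2, (hφ p).2.1 rfl]
      norm_num
    · exact le_mo p hg fun j => (hU j).2.2 p hpx hpy
  -- the other places
  have hot : ∀ P : Place k K, P ≠ o → P ≠ p → mo P (uu x y α β γ r s) = 0 := by
    intro P hPo hPp
    have hge : 0 ≤ mo P (uu x y α β γ r s) := le_mo P hg fun j => (hU j).1 P hPo
    by_cases hPp' : P = p'
    · subst hPp'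
      obtain ⟨D, hl, ha, -, h4⟩ := hD 1
      have h1 := r1_at_p' he hβ hγ h0 (P := P) hp'x hp'y
        ((hPt3 _ _ P hp'x hp'y).2.1 hpy0) s D hl ha h4 hr1
      obtain ⟨-, h2⟩ := Val.unit (P := P) (f := x) hp'x hpx0
      have h3 := mo_le P hg1
      rw [hord, h1, h2, (hφ P).1 rfl] at h3
      omega
    · obtain ⟨a, b, hab, hxa, hyb⟩ := hPt1 P (hreg P hPo).1
      have hφP := (hφ P).2.2.2 hPp' hPp hPo
      by_cases ha : a = 0
      · have hb : b = 0 := by
          rw [ha] at hab
          simpa using hab
        have h1 := (hPt3 a b P hxa hyb).2.2 hb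
        rw [ha, map_zero, sub_zero] at h1
        have h2 := r1_at_zero h1.2 h1.1 hy0 α β γ (n := n + 1) s (hsne 0)
        have h3 := mo_le P hg1
        rw [hord, h2, h1.2, hφP] at h3
        omega
      · have vx : Val P x a := hxa
        have vy : Val P y b := hyb
        obtain ⟨-, hPx⟩ := vx.unit ha
        by_contra hne
        have h1 : 1 ≤ mo P (uu x y α β γ r s) := by omega
        have hG : ∀ j, Ge P 1 (uu x y α β γ r s j) := fun j => (ge_mo P _ j).mono h1
        have hφP' : Ge P 0 (phi x y α β γ) := Or.inr hφP.ge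
        have hPx' : Ge P 0 x := Or.inr hPx.ge
        have z0 : Ge P 1 (r0 x y α β γ r) := by
          apply ge_sqrt1
          have e : r0 x y α β γ r ^ 2 = phi x y α β γ * uu x y α β γ r s 0 := by
            show _ = phi x y α β γ * (r0 x y α β γ r ^ 2 / phi x y α β γ)
            rw [mul_div_cancel₀ _ hφ0]
          rw [e]
          have := hφP'.mul (hG 0)
          rwa [zero_add] at this
        have z1 : Ge P 1 (r1 x y α β γ s) := by
          apply ge_sqrt1
          have e : r1 x y α β γ s ^ 2 = x * phi x y α β γ * uu x y α β γ r s 1 := by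
            show _ = x * phi x y α β γ * (r1 x y α β γ s ^ 2 / (x * phi x y α β γ))
            rw [mul_div_cancel₀ _ (mul_ne_zero hx0 hφ0)]
          rw [e]
          have := (hPx'.mul hφP').mul (hG 1)
          rwa [zero_add, zero_add] at this
        have w0 := (val_r0 vx vy α β γ r).eq_zero z0
        have w1 := (val_r1 vx vy α β γ s).eq_zero z1
        -- the derivations kill `a` and `b`
        have hkill : ∀ D : Derivation ℤ k k, D lam = 0 → D α = 0 → (∀ i, D (r i) = 0) →
            D a = 0 ∧ D b = 0 := by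
          intro D hl hDα hDr
          obtain ⟨hDβ, hDγ, hDx, hDy⟩ := par_der D hβ hγ h0 hl hDα
          apply hFix k D lam a b hl hab (n + 2 + 1)
            (Fin.cons (-∑ j : Fin (n + 2), r j * fn (px α β γ) (py α β γ) (j + 1)) r)
          · intro h
            apply hr
            funext i
            have := congrFun h i.succ
            simpa using this
          · intro j
            refine Fin.cases ?_ (fun i => ?_) j
            · rw [Fin.cons_zero, map_neg, map_sum, Finset.sum_eq_zero, neg_zero]
              intro i _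
              exact der_mul0 D (hDr i) (lift_fn hDx hDy _)
            · rw [Fin.cons_succ]
              exact hDr i
          · rw [Fin.sum_univ_succ]
            simp only [Fin.cons_zero, Fin.cons_succ, Fin.val_zero, Fin.val_succ]
            have e0 : fn a b 0 = 1 := by simp [fn]
            rw [e0, mul_one, ← w0, ← Finset.sum_neg_distrib, ← Finset.sum_add_distrib]
            refine Finset.sum_congr rfl fun i _ => ?_
            ring
        have hw : ∀ j : Fin (n + 2), fn a b (j + 2) -
            fn (px α β γ) (py α β γ) (j + 2) / px α β γ * a = 0 := by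
          intro j
          obtain ⟨D, hl, hDα, hDr, h4⟩ := hD j
          obtain ⟨hDa, hDb⟩ := hkill D hl hDα hDr
          obtain ⟨hDβ, hDγ, hDx, hDy⟩ := par_der D hβ hγ h0 hl hDα
          have hw := der_sum D s (fun j : Fin (n + 2) => fn a b (j + 2) -
            fn (px α β γ) (py α β γ) (j + 2) / px α β γ * a) j h4 (fun i => by
              rw [map_sub, lift_fn hDa hDb,
                der_mul0 D (der_div D (lift_fn hDx hDy _) hDx) hDa, sub_zero])
          rw [w1, map_zero] at hw
          exact hw.symm
        have e0 := hw 0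
        have e1 := hw 1
        simp only [Fin.val_zero, Fin.val_one, zero_add] at e0 e1
        rw [fn_two, fn_two] at e0
        rw [show 1 + 2 = 3 from rfl, fn_three, fn_three] at e1
        have h5 : px α β γ ^ 2 / px α β γ = px α β γ := by
          rw [pow_two, mul_div_assoc, div_self hpx0, mul_one]
        rw [h5] at e1
        have ea : a = px α β γ := by
          have : a * (a - px α β γ) = 0 := by linear_combination e1
          exact sub_eq_zero.1 ((mul_eq_zero.1 this).resolve_left ha)
        have eb : b = py α β γ := by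
          rw [ea, div_mul_cancel₀ _ hpx0] at e0
          exact sub_eq_zero.1 e0
        apply hPp'
        rw [ea] at hxa
        rw [eb] at hyb
        exact (hPt3 _ _ p' hp'x hp'y).1 P hxa hyb
  rw [ht_finset (uu x y α β γ r s) {o, p}, Finset.sum_pair hpo.symm, hmo, hmp]
  · push_cast
    ring
  · intro P hP
    by_contra hc
    rw [Finset.mem_insert, Finset.mem_singleton, not_or] at hc
    exact hP (hot P hc.1 hc.2)

end Pool.Agent.Q221.DP
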