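import Pool.Agent.Q221.DP.Val

/-! Lemmas for the height of the functions `uu`. -/

set_option autoImplicit false
set_option linter.unusedSectionVars false

namespace Pool.Agent.Q221.DP

open MvPolynomial FF Pool.Agent.W603.LV Pool.Agent.TH145.GH Pool.Agent.Y166.DP Pool.Agent.Q35.DP

section
variable {A : Type} [CommRing A]

theorem fn_two (x y : A) : fn x y 2 = y := by
  simp [fn]

theorem fn_three (x y : A) : fn x y 3 = x ^ 2 := by
  simp [fn]

/-- the derivative of `fn x y j` for a derivation with `x ↦ 1`, `y ↦ z` -/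
def dfn (x y z : A) (j : ℕ) : A :=
  if j = 0 then 0 else if j % 2 = 1 then ((j + 1) / 2 : ℕ) * x ^ ((j + 1) / 2 - 1)
  else ((j - 2) / 2 : ℕ) * x ^ ((j - 2) / 2 - 1) * y + x ^ ((j - 2) / 2) * z

theorem dfn_three (x y z : A) : dfn x y z 3 = 2 * x := by
  simp [dfn]

end

section
variable {k : Type} [Field k]

theorem der_div (D : Derivation ℤ k k) {a b : k} (ha : D a = 0) (hb : D b = 0) : D (a / b) = 0 := by
  by_cases h : b = 0
  · rw [h, div_zero, map_zero]
  · have h1 : D (a / b * b) = 0 := by rw [div_mul_cancel₀ _ h, ha]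
    rw [D.leibniz, hb, smul_zero, zero_add, smul_eq_mul] at h1
    exact (mul_eq_zero.1 h1).resolve_left h

theorem der_mul0 (D : Derivation ℤ k k) {a b : k} (ha : D a = 0) (hb : D b = 0) : D (a * b) = 0 := by
  rw [D.leibniz, ha, hb]; simp

theorem der_pow0 (D : Derivation ℤ k k) {a : k} (ha : D a = 0) (n : ℕ) : D (a ^ n) = 0 := by
  rw [D.leibniz_pow, ha]; simp

theorem der_nat0 (D : Derivation ℤ k k) (n : ℕ) : D (n : k) = 0 := D.map_natCast n

theorem der_dfn (D : Derivation ℤ k k) {a b c : k} (ha : D a = 0) (hb : D b = 0) (hc : D c = 0)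
    (j : ℕ) : D (dfn a b c j) = 0 := by
  unfold dfn
  split_ifs
  · exact map_zero D
  · exact der_mul0 D (der_nat0 D _) (der_pow0 D ha _)
  · rw [map_add, der_mul0 D (der_mul0 D (der_nat0 D _) (der_pow0 D ha _)) hb,
      der_mul0 D (der_pow0 D ha _) hc, add_zero]

variable {lam α β γ : k}

theorem par_ne (hl0 : lam ≠ 0) (hl1 : lam ≠ 1) (hβ : β ^ 2 = α ^ 2 - 1) (hγ : γ ^ 2 = α ^ 2 - lam) :
    px α β γ ≠ 0 ∧ py α β γ ≠ 0 := by
  have h1 : α + β ≠ 0 := by
    intro h
    have : β = -α := by linear_combination h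
    rw [this] at hβ
    exact one_ne_zero (α := k) (by linear_combination hβ)
  have h2 : α + γ ≠ 0 := by
    intro h
    have : γ = -α := by linear_combination h
    rw [this] at hγ
    exact hl0 (by linear_combination hγ)
  have h3 : β + γ ≠ 0 := by
    intro h
    have : γ = -β := by linear_combination h
    rw [this] at hγ
    exact hl1 (by linear_combination hγ - hβ)
  exact ⟨mul_ne_zero h1 h2, mul_ne_zero (mul_ne_zero h1 h2) h3⟩

theorem par_der [CharZero k] (D : Derivation ℤ k k) (hβ : β ^ 2 = α ^ 2 - 1)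
    (hγ : γ ^ 2 = α ^ 2 - lam) (h0 : α * β * γ ≠ 0) (hl : D lam = 0) (ha : D α = 0) :
    D β = 0 ∧ D γ = 0 ∧ D (px α β γ) = 0 ∧ D (py α β γ) = 0 := by
  have hb0 : β ≠ 0 := by
    rintro rfl
    simp at h0
  have hc0 : γ ≠ 0 := by
    rintro rfl
    simp at h0
  have hb : D β = 0 := by
    apply der_of_sq D hb0
    rw [hβ, map_sub, der_pow0 D ha, D.map_one_eq_zero, sub_zero]
  have hc : D γ = 0 := by
    apply der_of_sq D hc0
    rw [hγ, map_sub, der_pow0 D ha, hl, sub_zero]
  have h1 : D (α + β) = 0 := by rw [map_add, ha, hb, add_zero]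
  have h2 : D (α + γ) = 0 := by rw [map_add, ha, hc, add_zero]
  have h3 : D (β + γ) = 0 := by rw [map_add, hb, hc, add_zero]
  exact ⟨hb, hc, der_mul0 D h1 h2, der_mul0 D (der_mul0 D h1 h2) h3⟩

end

section
variable {k K : Type} [Field k] [Field K] [Algebra k K]

theorem val_r0 {P : Place k K} {x y : K} {a b : k} (hx : Val P x a) (hy : Val P y b)
    (α β γ : k) {m : ℕ} (r : Fin m → k) : Val P (r0 x y α β γ r)
      (∑ j, r j * (fn a b (j + 1) - fn (px α β γ) (py α β γ) (j + 1))) := by
  unfold r0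
  exact Val.sum _ fun j _ => (Val.const _).mul ((Val.fn hx hy _).sub (Val.const _))

theorem val_r1 {P : Place k K} {x y : K} {a b : k} (hx : Val P x a) (hy : Val P y b)
    (α β γ : k) {m : ℕ} (s : Fin m → k) : Val P (r1 x y α β γ s)
      (∑ j, s j * (fn a b (j + 2) - fn (px α β γ) (py α β γ) (j + 2) / px α β γ * a)) := by
  unfold r1
  exact Val.sum _ fun j _ => (Val.const _).mul ((Val.fn hx hy _).sub ((Val.const _).mul hx))

theorem val_dfn {P : Place k K} {x y z : K} {a b c : k} (hx : Val P x a) (hy : Val P y b)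
    (hz : Val P z c) (j : ℕ) : Val P (dfn x y z j) (dfn a b c j) := by
  unfold dfn
  split_ifs
  · exact Val.zero
  · exact (Val.natCast _).mul (hx.pow _)
  · exact (((Val.natCast _).mul (hx.pow _)).mul hy).add ((hx.pow _).mul hz)

theorem der_fn (δ : Derivation k K K) {x y : K} (hx : δ x = 1) (j : ℕ) :
    δ (fn x y j) = dfn x y (δ y) j := by
  unfold fn dfn
  split_ifs
  · exact δ.map_one_eq_zero
  · rw [δ.leibniz_pow, hx]
    simp only [smul_eq_mul, nsmul_eq_mul, mul_one]
  · rw [δ.leibniz, δ.leibniz_pow, hx]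
    simp only [smul_eq_mul, nsmul_eq_mul, mul_one]
    ring

theorem der_r1 (δ : Derivation k K K) {x y : K} (hx : δ x = 1) (α β γ : k) {m : ℕ}
    (s : Fin m → k) : δ (r1 x y α β γ s) = ∑ j, algebraMap k K (s j) *
      (dfn x y (δ y) (j + 2) - algebraMap k K (fn (px α β γ) (py α β γ) (j + 2) / px α β γ)) := by
  unfold r1
  rw [map_sum]
  refine Finset.sum_congr rfl fun j _ => ?_
  have h1 : ∀ (c : k) (f : K), δ (algebraMap k K c * f) = algebraMap k K c * δ f := by
    intro c f
    rw [δ.leibniz, δ.map_algebraMap]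
    simp
  rw [h1, map_sub, h1, der_fn δ hx, hx, mul_one]

/-- the function `uu 1` -/
theorem ord_u1 (P : Place k K) {x y : K} {α β γ : k} {m : ℕ} (r s : Fin m → k) (hx : x ≠ 0)
    (hφ : phi x y α β γ ≠ 0) (h1 : r1 x y α β γ s ≠ 0) :
    uu x y α β γ r s 1 ≠ 0 ∧
    P.ord (uu x y α β γ r s 1) =
      2 * P.ord (r1 x y α β γ s) - (P.ord x + P.ord (phi x y α β γ)) := by
  have e : uu x y α β γ r s 1 = r1 x y α β γ s ^ 2 / (x * phi x y α β γ) := rfl
  rw [e]
  refine ⟨div_ne_zero (pow_ne_zero _ h1) (mul_ne_zero hx hφ), ?_⟩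
  rw [P.ord_div (pow_ne_zero _ h1) (mul_ne_zero hx hφ), P.ord_pow, P.ord_mul hx hφ]
  push_cast
  ring

/-- the order of `r1` at infinity -/
theorem r1_at_o {o : Place k K} {x y : K} (hfn : ∀ j : ℕ, fn x y j ≠ 0 ∧
      o.ord (fn x y j) = if j = 0 then 0 else -((j : ℤ) + 1)) (hox : o.ord x = -2)
    (α β γ : k) {n : ℕ} (s : Fin (n + 1) → k) (hs : s (Fin.last n) ≠ 0) :
    r1 x y α β γ s ≠ 0 ∧ o.ord (r1 x y α β γ s) = -((n : ℤ) + 3) := by
  have hc : algebraMap k K (s (Fin.last n)) ≠ 0 := by simpa using hs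
  have h1 := hfn (n + 2)
  have h2 : algebraMap k K (s (Fin.last n)) * fn x y (n + 2) ≠ 0 := mul_ne_zero hc h1.1
  have h3 : o.ord (algebraMap k K (s (Fin.last n)) * fn x y (n + 2)) = -((n : ℤ) + 3) := by
    rw [o.ord_mul hc h1.1, o.ord_const hs, h1.2, if_neg (by omega)]
    push_cast
    ring
  have hxc : ∀ c : k, Ge o (-((n : ℤ) + 3) + 1) (algebraMap k K c * x) := by
    intro c
    have := (Ge.const (P := o) c).mul (Or.inr le_rfl : Ge o (o.ord x) x)
    rw [hox] at this
    exact this.mono (by omega)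
  have e : r1 x y α β γ s = algebraMap k K (s (Fin.last n)) * fn x y (n + 2) +
      ((∑ i : Fin n, algebraMap k K (s i.castSucc) * (fn x y (i + 2) -
        algebraMap k K (fn (px α β γ) (py α β γ) (i + 2) / px α β γ) * x)) -
        algebraMap k K (s (Fin.last n)) *
          (algebraMap k K (fn (px α β γ) (py α β γ) (n + 2) / px α β γ) * x)) := by
    unfold r1
    rw [Fin.sum_univ_castSucc]
    simp only [Fin.val_castSucc, Fin.val_last]
    ring
  have h4 := ord_add_of_ge (P := o) h2 (g := (∑ i : Fin n, algebraMap k K (s i.castSucc) *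
      (fn x y (i + 2) - algebraMap k K (fn (px α β γ) (py α β γ) (i + 2) / px α β γ) * x)) -
        algebraMap k K (s (Fin.last n)) *
          (algebraMap k K (fn (px α β γ) (py α β γ) (n + 2) / px α β γ) * x)) (by
    rw [h3]
    refine Ge.sub (Ge.sum _ _ fun i _ => ?_) ?_
    · have h5 : Ge o (-((n : ℤ) + 3) + 1) (fn x y (i + 2)) := by
        right
        rw [(hfn (i + 2)).2, if_neg (by omega)]
        have := i.2
        push_cast
        omega
      have := (Ge.const (P := o) (s i.castSucc)).mul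
        (h5.sub (hxc (fn (px α β γ) (py α β γ) (i + 2) / px α β γ)))
      rwa [zero_add] at this
    · have := (Ge.const (P := o) (s (Fin.last n))).mul
        (hxc (fn (px α β γ) (py α β γ) (n + 2) / px α β γ))
      rwa [zero_add] at this)
  rw [← e, h3] at h4
  exact h4

/-- the order of `r1` at `(0, 0)` -/
theorem r1_at_zero {P : Place k K} {x y : K} (hx : P.ord x = 2) (hy : P.ord y = 1) (hy0 : y ≠ 0)
    (α β γ : k) {n : ℕ} (s : Fin (n + 1) → k) (hs : s 0 ≠ 0) : P.ord (r1 x y α β γ s) = 1 := by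
  have hc : algebraMap k K (s 0) ≠ 0 := by simpa using hs
  have hgx : Ge P 2 x := Or.inr hx.ge
  have hgy : Ge P 1 y := Or.inr hy.ge
  have h2 : algebraMap k K (s 0) * y ≠ 0 := mul_ne_zero hc hy0
  have h3 : P.ord (algebraMap k K (s 0) * y) = 1 := by
    rw [P.ord_mul hc hy0, P.ord_const hs, hy, zero_add]
  have hxc : ∀ c : k, Ge P 2 (algebraMap k K c * x) := by
    intro c
    have := (Ge.const (P := P) c).mul hgx
    rwa [zero_add] at this
  have hf : ∀ j : ℕ, Ge P 2 (fn x y (j + 3)) := by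
    intro j
    unfold fn
    rw [if_neg (by omega)]
    split_ifs with h
    · have := hgx.pow ((j + 3 + 1) / 2)
      refine this.mono ?_
      have : (1 : ℤ) ≤ ((j + 3 + 1) / 2 : ℕ) := by
        have : 1 ≤ (j + 3 + 1) / 2 := by omega
        exact_mod_cast this
      linarith
    · have := (hgx.pow ((j + 3 - 2) / 2)).mul hgy
      refine this.mono ?_
      have : (1 : ℤ) ≤ ((j + 3 - 2) / 2 : ℕ) := by
        have : 1 ≤ (j + 3 - 2) / 2 := by omega
        exact_mod_cast this
      linarith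
  have e : r1 x y α β γ s = algebraMap k K (s 0) * y +
      ((∑ i : Fin n, algebraMap k K (s i.succ) * (fn x y (i + 3) -
        algebraMap k K (fn (px α β γ) (py α β γ) (i + 3) / px α β γ) * x)) -
        algebraMap k K (s 0) *
          (algebraMap k K (fn (px α β γ) (py α β γ) 2 / px α β γ) * x)) := by
    unfold r1
    rw [Fin.sum_univ_succ]
    simp only [Fin.val_zero, Fin.val_succ, zero_add, fn_two]
    have : ∀ i : Fin n, (i : ℕ) + 1 + 2 = i + 3 := fun i => by ring
    simp only [this]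
    ring
  have h4 := ord_add_of_ge (P := P) h2 (g := ((∑ i : Fin n, algebraMap k K (s i.succ) *
      (fn x y (i + 3) -
        algebraMap k K (fn (px α β γ) (py α β γ) (i + 3) / px α β γ) * x)) -
        algebraMap k K (s 0) *
          (algebraMap k K (fn (px α β γ) (py α β γ) 2 / px α β γ) * x))) (by
    rw [h3]
    refine Ge.sub (Ge.sum _ _ fun i _ => ?_) ?_
    · have := (Ge.const (P := P) (s i.succ)).mul
        ((hf i).sub (hxc (fn (px α β γ) (py α β γ) (i + 3) / px α β γ)))
      rwa [zero_add] at this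
    · have := (Ge.const (P := P) (s 0)).mul
        (hxc (fn (px α β γ) (py α β γ) 2 / px α β γ))
      rwa [zero_add] at this)
  rw [← e, h3] at h4
  exact h4.2

variable [CharZero k] [IsAlgClosed k] [IsFF k K]

/-- a derivation with `x ↦ 1` -/
theorem exists_dx {x : K} (hx : Transcendental k x) : ∃ δ : Derivation k K K, δ x = 1 := by
  obtain ⟨D, hD⟩ := exists_der (k := k) (K := K)
  have h := der_ne_zero hD hx
  exact ⟨(D x)⁻¹ • D, by simp [h]⟩

/-- the order of `r1` at the place `p'` over `(px, py)` -/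
theorem r1_at_p' {lam : k} {x y : K} (he : Ell k K lam x y) {P : Place k K} {α β γ : k}
    (hβ : β ^ 2 = α ^ 2 - 1) (hγ : γ ^ 2 = α ^ 2 - lam) (h0 : α * β * γ ≠ 0)
    (hx : Val P x (px α β γ)) (hy : Val P y (py α β γ))
    (hπ : P.ord (x - algebraMap k K (px α β γ)) = 1)
    {n : ℕ} (s : Fin (n + 2) → k) (D : Derivation ℤ k k) (hl : D lam = 0) (ha : D α = 0)
    (hs : ∀ i, D (s i) = if i = 1 then 1 else 0) (hr : r1 x y α β γ s ≠ 0) :
    P.ord (r1 x y α β γ s) = 1 := by
  obtain ⟨hx0, hy0⟩ := par_ne he.lam0 he.lam1 hβ hγ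
  obtain ⟨hDβ, hDγ, hDx, hDy⟩ := par_der D hβ hγ h0 hl ha
  -- the value is zero
  have h1 : Ge P 1 (r1 x y α β γ s) := by
    have := val_r1 hx hy α β γ s
    unfold Val at this
    have e : (∑ j : Fin (n + 2), s j * (fn (px α β γ) (py α β γ) (j + 2) -
        fn (px α β γ) (py α β γ) (j + 2) / px α β γ * px α β γ)) = 0 := by
      refine Finset.sum_eq_zero fun j _ => ?_
      rw [div_mul_cancel₀ _ hx0, sub_self, mul_zero]
    rwa [e, map_zero, sub_zero] at this
  have h2 := h1.resolve_left hr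
  by_contra h3
  have h4 : Ge P ((2 : ℕ) : ℤ) (r1 x y α β γ s) := Or.inr (by push_cast; omega)
  obtain ⟨δ, hδ⟩ := exists_dx (K := K) he.tr
  have hδπ : δ (x - algebraMap k K (px α β γ)) = 1 := by
    rw [map_sub, hδ, δ.map_algebraMap, sub_zero]
  have h5 : Ge P 1 (δ (r1 x y α β γ s)) := by
    have := ge_step P hπ hδπ h4
    simpa using this
  -- the value of `δ y`
  obtain ⟨c, hc⟩ := exists_const P (der_reg P hπ δ hδπ hy.reg)
  have hc' : Val P (δ y) c := hc
  have hcc : 2 * py α β γ * c = 3 * px α β γ ^ 2 - 2 * (1 + lam) * px α β γ + lam := by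
    have e1 : 2 * y * δ y = 3 * x ^ 2 - 2 * (1 + algebraMap k K lam) * x + algebraMap k K lam := by
      have h6 := congrArg δ he.eqn
      rw [pow_two, δ.leibniz, δ.leibniz, δ.leibniz, map_sub, map_sub, hδ, δ.map_one_eq_zero,
        δ.map_algebraMap] at h6
      simp only [smul_eq_mul] at h6
      linear_combination h6
    have v1 : Val P (2 * y * δ y) (2 * py α β γ * c) := by
      have := ((Val.natCast (P := P) 2).mul hy).mul hc'
      simpa using this
    have v2 : Val P (3 * x ^ 2 - 2 * (1 + algebraMap k K lam) * x + algebraMap k K lam)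
        (3 * px α β γ ^ 2 - 2 * (1 + lam) * px α β γ + lam) := by
      have h7 := (((Val.natCast (P := P) 3).mul (hx.pow 2)).sub
        (((Val.natCast (P := P) 2).mul (Val.one.add (Val.const lam))).mul hx)).add (Val.const lam)
      simpa using h7
    rw [e1] at v1
    exact v1.unique v2
  have hDc : D c = 0 := by
    have h8 : D (2 * py α β γ * c) = 2 * py α β γ * D c := by
      have h9 : D (2 * py α β γ) = 0 := by
        have := der_mul0 D (der_nat0 D 2) hDy
        simpa using this
      rw [D.leibniz, h9]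
      simp
    have h10 : D (3 * px α β γ ^ 2 - 2 * (1 + lam) * px α β γ + lam) = 0 := by
      have e3 : D ((3 : ℕ) : k) = 0 := der_nat0 D 3
      have e2 : D ((2 : ℕ) : k) = 0 := der_nat0 D 2
      have e1 : D (1 + lam) = 0 := by rw [map_add, D.map_one_eq_zero, hl, add_zero]
      have a1 : D (((3 : ℕ) : k) * px α β γ ^ 2) = 0 := der_mul0 D e3 (der_pow0 D hDx 2)
      have a2 : D (((2 : ℕ) : k) * (1 + lam) * px α β γ) = 0 := der_mul0 D (der_mul0 D e2 e1) hDx
      have := congrArg₂ (· + ·) (congrArg₂ (· - ·) a1 a2) hl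
      simp only [← map_sub, ← map_add] at this
      simpa using this
    rw [hcc, h10] at h8
    exact (mul_eq_zero.1 h8.symm).resolve_left (mul_ne_zero two_ne_zero hy0)
  -- the value of `δ r1`
  have hv : Val P (δ (r1 x y α β γ s)) (∑ j : Fin (n + 2), s j *
      (dfn (px α β γ) (py α β γ) c (j + 2) - fn (px α β γ) (py α β γ) (j + 2) / px α β γ)) := by
    rw [der_r1 δ hδ]
    exact Val.sum _ fun j _ => (Val.const _).mul ((val_dfn hx hy hc' _).sub (Val.const _))
  have hz := hv.eq_zero h5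
  have hw := der_sum D s (fun j : Fin (n + 2) =>
    dfn (px α β γ) (py α β γ) c (j + 2) - fn (px α β γ) (py α β γ) (j + 2) / px α β γ) 1 hs
    (fun i => by
      rw [map_sub, der_dfn D hDx hDy hDc, der_div D (lift_fn hDx hDy _) hDx, sub_zero])
  rw [hz, map_zero] at hw
  simp only [Fin.val_one] at hw
  rw [show 1 + 2 = 3 from rfl, dfn_three, fn_three] at hw
  apply hx0
  field_simp at hw
  linear_combination -hw

end

end Pool.Agent.Q221.DP
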