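import Pool.Agent.Q35.DP.Plan

/-! Values of functions at places. -/

set_option autoImplicit false
set_option linter.unusedSectionVars false

namespace Pool.Agent.Q221.DP

open MvPolynomial FF Pool.Agent.W603.LV Pool.Agent.TH145.GH Pool.Agent.Y166.DP Pool.Agent.Q35.DP

section
variable {k K : Type} [Field k] [Field K] [Algebra k K]

/-- the function `f` has the value `c` at the place `P` -/
def Val (P : Place k K) (f : K) (c : k) : Prop := Ge P 1 (f - algebraMap k K c)

namespace Val

variable {P : Place k K} {f g : K} {c d : k}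

theorem reg (h : Val P f c) : Ge P 0 f := by
  have h1 : Ge P 0 (f - algebraMap k K c) := Ge.mono (by norm_num) h
  have := h1.add (Ge.const c)
  simpa using this

theorem const (c : k) : Val P (algebraMap k K c) c := by
  unfold Val
  rw [sub_self]
  exact Ge.zero

theorem one : Val P (1 : K) (1 : k) := by
  have := Val.const (P := P) (1 : k)
  rwa [map_one] at this

theorem zero : Val P (0 : K) (0 : k) := by
  have := Val.const (P := P) (0 : k)
  rwa [map_zero] at this

theorem natCast (n : ℕ) : Val P (n : K) (n : k) := by
  have := Val.const (P := P) (n : k)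
  rwa [map_natCast] at this

theorem add (hf : Val P f c) (hg : Val P g d) : Val P (f + g) (c + d) := by
  have := Ge.add hf hg
  unfold Val
  convert this using 1
  rw [map_add]
  ring

theorem neg (hf : Val P f c) : Val P (-f) (-c) := by
  have := Ge.neg hf
  unfold Val
  convert this using 1
  rw [map_neg]
  ring

theorem sub (hf : Val P f c) (hg : Val P g d) : Val P (f - g) (c - d) := by
  rw [sub_eq_add_neg, sub_eq_add_neg]
  exact hf.add hg.neg

theorem mul (hf : Val P f c) (hg : Val P g d) : Val P (f * g) (c * d) := by
  have h1 := Ge.mul hf hg.reg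
  have h2 := (Ge.const c).mul hg
  rw [add_zero] at h1
  rw [zero_add] at h2
  have := h1.add h2
  unfold Val
  convert this using 1
  rw [map_mul]
  ring

theorem pow (hf : Val P f c) (n : ℕ) : Val P (f ^ n) (c ^ n) := by
  induction n with
  | zero => simpa using Val.one (P := P)
  | succ n ih =>
    rw [pow_succ, pow_succ]
    exact ih.mul hf

theorem sum {ι : Type} (s : Finset ι) {F : ι → K} {G : ι → k} (h : ∀ i ∈ s, Val P (F i) (G i)) :
    Val P (∑ i ∈ s, F i) (∑ i ∈ s, G i) := by
  classical
  induction s using Finset.induction_on with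
  | empty => simpa using Val.zero (P := P)
  | insert a s ha ih =>
    rw [Finset.sum_insert ha, Finset.sum_insert ha]
    exact (h a (Finset.mem_insert_self a s)).add (ih fun i hi => h i (Finset.mem_insert_of_mem hi))

theorem eq_zero (h : Val P f c) (hf : Ge P 1 f) : c = 0 := by
  by_contra hc
  have h1 : Ge P 1 (algebraMap k K c) := by
    have := hf.sub h
    simpa using this
  have h2 := h1.resolve_left (by simpa using hc)
  rw [P.ord_const hc] at h2
  omega

theorem unique (h : Val P f c) (h' : Val P f d) : c = d := by
  have := (h.sub h').eq_zero (by rw [sub_self]; exact Ge.zero)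
  exact sub_eq_zero.1 this

theorem unit (h : Val P f c) (hc : c ≠ 0) : f ≠ 0 ∧ P.ord f = 0 := by
  have h0 : f ≠ 0 := by
    rintro rfl
    exact hc (h.eq_zero Ge.zero)
  refine ⟨h0, ?_⟩
  have h1 := h.reg.resolve_left h0
  by_contra h2
  exact hc (h.eq_zero (Or.inr (by omega)))

/-- values of the basis functions -/
theorem fn {x y : K} {a b : k} (hx : Val P x a) (hy : Val P y b) (j : ℕ) :
    Val P (Y166.DP.fn x y j) (Y166.DP.fn a b j) := by
  unfold Y166.DP.fn
  split_ifs
  · exact Val.one
  · exact hx.pow _
  · exact (hx.pow _).mul hy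

end Val

theorem ge_sqrt {P : Place k K} {f : K} {n : ℤ} (h : Ge P (2 * n) (f ^ 2)) : Ge P n f := by
  rcases h with h | h
  · exact Or.inl (pow_eq_zero_iff (by norm_num) |>.1 h)
  · right
    rw [P.ord_pow] at h
    push_cast at h
    omega

theorem ge_sqrt1 {P : Place k K} {f : K} (h : Ge P 1 (f ^ 2)) : Ge P 1 f := by
  rcases h with h | h
  · exact Or.inl (pow_eq_zero_iff (by norm_num) |>.1 h)
  · right
    rw [P.ord_pow] at h
    push_cast at h
    omega

/-- the order of a sum with a dominating term -/
theorem ord_add_of_ge {P : Place k K} {f g : K} (hf : f ≠ 0) (h : Ge P (P.ord f + 1) g) :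
    f + g ≠ 0 ∧ P.ord (f + g) = P.ord f := by
  by_cases hg : g = 0
  · rw [hg, add_zero]
    exact ⟨hf, rfl⟩
  · exact P.ord_add_eq hf hg (by have := h.resolve_left hg; omega)

end

/-- A derivation that kills the square of a nonzero element kills the element. -/
theorem der_of_sq {k : Type} [Field k] [CharZero k] (D : Derivation ℤ k k) {c : k} (hc : c ≠ 0)
    (h : D (c ^ 2) = 0) : D c = 0 := by
  have h1 : D (c ^ 2) = 2 * c * D c := by
    rw [pow_two, D.leibniz]
    simp only [smul_eq_mul]
    ring
  rw [h1] at h
  exact (mul_eq_zero.1 h).resolve_left (mul_ne_zero two_ne_zero hc)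

/-- The dual derivation picks out a coefficient. -/
theorem der_sum {k : Type} [Field k] (D : Derivation ℤ k k) {m : ℕ} (s w : Fin m → k)
    (j : Fin m) (hs : ∀ i, D (s i) = if i = j then 1 else 0) (hw : ∀ i, D (w i) = 0) :
    D (∑ i, s i * w i) = w j := by
  rw [map_sum]
  have : ∀ i, D (s i * w i) = if i = j then w i else 0 := by
    intro i
    rw [D.leibniz, hw, hs]
    split_ifs <;> simp
  rw [Finset.sum_congr rfl fun i _ => this i]
  simp

end Pool.Agent.Q221.DP
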